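import Pool.Agent.W622.ETG.Stm

set_option autoImplicit false

namespace Pool.Agent.W605.ELG

open Pool.Agent.W622.ETG Module

theorem t_ELI : S_ELI := by
  intro V _ _ _ e A s hs hel hA
  classical
  have key : ∀ t : Finset (DSub V), (t : Set (DSub V)) ⊆ s → El e (⨆ X ∈ t, res A X) := by
    intro t
    induction t using Finset.induction_on with
    | empty =>
      intro _
      have : (⨆ X ∈ (∅ : Finset (DSub V)), res A X) = ⊥ := by simp
      rw [this]
      exact El.zero
    | insert X t hX ih =>
      intro hts
      rw [Finset.iSup_insert]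
      have hXs : X ∈ s := hts (by simp)
      have htt : (t : Set (DSub V)) ⊆ s := fun Y hY => hts (by simp [Finset.mem_coe.mp hY])
      refine El.prod _ _ (hel X hXs) (ih htt) ?_
      refine (hs hXs).mono (supp_res_le A X) ?_
      have h1 : (⨆ Y ∈ t, res A Y) ≤ res A (sSup (s \ {X})) := by
        refine iSup_le fun Y => iSup_le fun hY => res_mono A ?_
        refine le_sSup ⟨htt hY, ?_⟩
        intro h
        rw [Set.mem_singleton_iff] at h
        subst h
        exact hX hY
      exact (supp_mono h1).trans (supp_res_le A _)
  have h2 := key (Set.toFinite s).toFinset (by simp)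
  have h3 : (⨆ X ∈ (Set.toFinite s).toFinset, res A X) = ⨆ X ∈ s, res A X := by
    simp
  rw [h3, ← hA] at h2
  exact h2

end Pool.Agent.W605.ELG
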